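import Mathlib
import Pool.Agent.H14.LPP

set_option autoImplicit false

namespace Pool.Agent.Results.MP_df70bc_co.Counter

open Pool.Agent.H14.LPP in
theorem result :
    (∃! g : MvPolynomial (Fin 10) (ZMod 7), IsReducedForm g (f 9)) ∧
    ∀ g : MvPolynomial (Fin 10) (ZMod 7), IsReducedForm g (f 9) →
      g.totalDegree < 10 * (7 - 2) :=
  ⟨exists_unique _, deg_lt⟩

end Pool.Agent.Results.MP_df70bc_co.Counter
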